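import Mathlib

namespace Pool.Agent.Results.MP_2fa119_al.NotSection

/-- formal `Ω`-monomials in the variables `x_0, x_1, …` -/
inductive Mono (Ω : ℕ → Type) : Type
  | var : ℕ → Mono Ω
  | app : (n : ℕ) → Ω n → (Fin n → Mono Ω) → Mono Ω

/-- an `Ω`-algebra structure on the `k`-vector space `A` -/
def Ops (k : Type) [Field k] (Ω : ℕ → Type) (A : Type) [AddCommGroup A] [Module k A] : Type :=
  (n : ℕ) → Ω n → MultilinearMap k (fun _ : Fin n => A) A

variable {k : Type} [Field k] {Ω : ℕ → Type} {A B : Type} [AddCommGroup A] [Module k A]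
  [AddCommGroup B] [Module k B]

/-- value of a monomial under a substitution -/
def evM (P : Ops k Ω A) (a : ℕ → A) : Mono Ω → A
  | .var i => a i
  | .app n ω w => P n ω fun j => evM P a (w j)

/-- value of an element of the free `Ω`-algebra under a substitution -/
noncomputable def ev (P : Ops k Ω A) (a : ℕ → A) (f : Mono Ω →₀ k) : A :=
  f.sum fun w c => c • evM P a w

def IsIdentity (P : Ops k Ω A) (f : Mono Ω →₀ k) : Prop := ∀ a, ev P a f = 0

/-- number of occurrences of the variable `x_i` -/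
def occ (i : ℕ) : Mono Ω → ℕ
  | .var j => if j = i then 1 else 0
  | .app _ _ w => ∑ j, occ i (w j)

/-- `f` is multilinear in `x_0, …, x_{m-1}` -/
def IsMultilin (m : ℕ) (f : Mono Ω →₀ k) : Prop :=
  ∀ w ∈ f.support, ∀ i, occ i w = if i < m then 1 else 0

def IsSubalg (P : Ops k Ω A) (R : Submodule k A) : Prop :=
  ∀ n ω (a : Fin n → A), (∀ j, a j ∈ R) → P n ω a ∈ R

def IsIdeal (P : Ops k Ω A) (I : Submodule k A) : Prop :=
  ∀ n ω (a : Fin n → A), (∃ j, a j ∈ I) → P n ω a ∈ I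

/-- `I · J ≠ 0` for all nonzero ideals -/
def IsPrime (P : Ops k Ω A) : Prop :=
  ∀ I J : Submodule k A, IsIdeal P I → IsIdeal P J → I ≠ ⊥ → J ≠ ⊥ →
    ∃ (t : ℕ) (f : Mono Ω →₀ k) (a : ℕ → A), IsMultilin (t + 2) f ∧ a 0 ∈ I ∧ a 1 ∈ J ∧ ev P a f ≠ 0

/-- `(A,P)` is a homomorphic image of a subalgebra of `(B,Q)`, i.e. isomorphic to a section -/
def IsSection (P : Ops k Ω A) (Q : Ops k Ω B) : Prop :=
  ∃ (R : Submodule k B) (π : R →ₗ[k] A), IsSubalg Q R ∧ Function.Surjective π ∧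
    ∀ n ω (b : Fin n → R) (c : R), (c : B) = Q n ω (fun j => b j) → π c = P n ω fun j => π (b j)

def Sig : ℕ → Type := fun n => PLift (n = 1 ∨ n = 3)

noncomputable def tern : MultilinearMap ℂ (fun _ : Fin 3 => ℂ × ℂ) (ℂ × ℂ) where
  toFun v := ((v 0).1 * (v 1).1 * (v 2).2, (v 0).2 * (v 1).2 * (v 2).1)
  map_update_add' := by
    intro inst v i x y
    obtain rfl : inst = instDecidableEqFin _ := Subsingleton.elim _ _
    fin_cases i <;> simp <;> constructor <;> ring
  map_update_smul' := by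
    intro inst v i c x
    obtain rfl : inst = instDecidableEqFin _ := Subsingleton.elim _ _
    fin_cases i <;> simp <;> constructor <;> ring

noncomputable def un (t : ℂ) : MultilinearMap ℂ (fun _ : Fin 1 => ℂ × ℂ) (ℂ × ℂ) where
  toFun v := (0, t * (v 0).1)
  map_update_add' v i x y := by
    fin_cases i; simp; ring
  map_update_smul' v i c x := by
    fin_cases i; simp; ring

noncomputable def Bt (t : ℂ) : Ops ℂ Sig (ℂ × ℂ)
  | 1, _ => un t
  | 3, _ => tern
  | 0, _ => 0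
  | 2, _ => 0
  | (_ + 4), _ => 0

lemma cont (a : ℕ → ℂ × ℂ) (w : Mono Sig) : Continuous fun t => evM (Bt t) a w := by
  induction w with
  | var i => exact continuous_const
  | app n ω w ih =>
    obtain ⟨h | h⟩ := ω
    · subst h
      have := ih 0
      simp only [evM, Bt, un, MultilinearMap.coe_mk]
      fun_prop
    · subst h
      have h0 := ih 0; have h1 := ih 1; have h2 := ih 2
      simp only [evM, Bt, tern, MultilinearMap.coe_mk]
      fun_prop

noncomputable def sc (s : ℂ) (v : ℂ × ℂ) : ℂ × ℂ := (s * v.1, s⁻¹ * v.2)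

lemma scale (s : ℂ) (hs : s ≠ 0) (a : ℕ → ℂ × ℂ) (w : Mono Sig) :
    evM (Bt 1) (fun i => sc s (a i)) w = sc s (evM (Bt (s ^ 2)) a w) := by
  induction w with
  | var i => rfl
  | app n ω w ih =>
    obtain ⟨h | h⟩ := ω
    · subst h
      simp only [evM, ih]
      simp only [Bt, un, MultilinearMap.coe_mk, sc, Prod.mk.injEq]
      constructor
      · simp
      · field_simp
    · subst h
      simp only [evM, ih]
      simp only [Bt, tern, MultilinearMap.coe_mk, sc, Prod.mk.injEq]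
      constructor <;> field_simp

lemma ident (f : Mono Sig →₀ ℂ) (hf : IsIdentity (Bt 1) f) : IsIdentity (Bt 0) f := by
  intro a
  have hc : Continuous fun s : ℂ => ev (Bt (s ^ 2)) a f := by
    unfold ev Finsupp.sum
    exact continuous_finsetSum _ fun w _ =>
      (continuous_const (y := f w)).smul ((cont a w).comp (continuous_pow 2))
  have h0 : Set.EqOn (fun s : ℂ => ev (Bt (s ^ 2)) a f) (fun _ => 0) {0}ᶜ := by
    intro s hs
    have hs' : s ≠ 0 := hs
    have := hf fun i => sc s (a i)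
    simp only [ev, scale s hs'] at this
    simp only [ev, Finsupp.sum, sc, Prod.ext_iff, Prod.fst_sum, Prod.snd_sum,
      Prod.smul_fst, Prod.smul_snd, smul_eq_mul, Prod.fst_zero, Prod.snd_zero] at this ⊢
    obtain ⟨h1, h2⟩ := this
    constructor
    · apply mul_left_cancel₀ hs'
      rw [mul_zero, ← h1, Finset.mul_sum]
      exact Finset.sum_congr rfl fun _ _ => by ring
    · apply mul_left_cancel₀ (inv_ne_zero hs')
      rw [mul_zero, ← h2, Finset.mul_sum]
      exact Finset.sum_congr rfl fun _ _ => by ring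
  have := congrFun (Continuous.ext_on (dense_compl_singleton (0 : ℂ)) hc continuous_const h0) 0
  simpa using this

lemma simple (I : Submodule ℂ (ℂ × ℂ)) (hI : IsIdeal (Bt 0) I) (h : I ≠ ⊥) :
    ((1, 0) : ℂ × ℂ) ∈ I ∧ ((0, 1) : ℂ × ℂ) ∈ I := by
  obtain ⟨v, hv, hv0⟩ := (Submodule.ne_bot_iff I).1 h
  have k1 : ∀ v ∈ I, v.2 ≠ 0 → ((1, 0) : ℂ × ℂ) ∈ I := fun v hv h2 => by
    have := hI 3 ⟨Or.inr rfl⟩ ![(v.2⁻¹, 0), (1, 0), v] ⟨2, hv⟩
    simpa [Bt, tern, h2] using this
  have k2 : ∀ v ∈ I, v.1 ≠ 0 → ((0, 1) : ℂ × ℂ) ∈ I := fun v hv h2 => by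
    have := hI 3 ⟨Or.inr rfl⟩ ![(0, v.1⁻¹), (0, 1), v] ⟨2, hv⟩
    simpa [Bt, tern, h2] using this
  by_cases h1 : v.1 = 0
  · have h2 : v.2 ≠ 0 := fun h2 => hv0 (Prod.ext h1 h2)
    exact ⟨k1 v hv h2, k2 _ (k1 v hv h2) (by simp)⟩
  · exact ⟨k1 _ (k2 v hv h1) (by simp), k2 v hv h1⟩

theorem result : ∃ (Ω : ℕ → Type) (A B : Type) (_ : AddCommGroup A) (_ : Module ℂ A)
    (_ : AddCommGroup B) (_ : Module ℂ B) (P : Ops ℂ Ω A) (Q : Ops ℂ Ω B),
    (∃ n, 2 ≤ n ∧ Nonempty (Ω n)) ∧ FiniteDimensional ℂ A ∧ FiniteDimensional ℂ B ∧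
    Nontrivial A ∧ IsPrime P ∧ (∀ f, IsIdentity Q f → IsIdentity P f) ∧ ¬ IsSection P Q := by
  refine ⟨Sig, ℂ × ℂ, ℂ × ℂ, inferInstance, inferInstance, inferInstance, inferInstance, Bt 0, Bt 1,
    ⟨3, by norm_num, ⟨⟨Or.inr rfl⟩⟩⟩, inferInstance, inferInstance, inferInstance, ?_, ident, ?_⟩
  · intro I J hI hJ hI0 hJ0
    refine ⟨1, Finsupp.single (.app 3 ⟨Or.inr rfl⟩ fun j => .var j) 1,
      fun i => if i = 2 then (0, 1) else (1, 0), ?_, (simple I hI hI0).1, (simple J hJ hJ0).1, ?_⟩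
    · intro w hw i
      rw [Finsupp.support_single_ne_zero _ one_ne_zero, Finset.mem_singleton] at hw
      subst hw
      simp only [occ, Fin.sum_univ_three, Fin.val_zero, Fin.val_one, Fin.val_two]
      split_ifs <;> omega
    · simp [ev, evM, Bt, tern]
  · rintro ⟨R, π, hR, hs, hπ⟩
    have hd : Module.finrank ℂ (ℂ × ℂ) ≤ Module.finrank ℂ R :=
      LinearMap.finrank_le_finrank_of_surjective hs
    have hR' : R = ⊤ := Submodule.eq_top_of_finrank_eq (le_antisymm R.finrank_le hd)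
    have hinj : Function.Injective π :=
      (LinearMap.injective_iff_surjective_of_finrank_eq_finrank
        (le_antisymm R.finrank_le hd)).2 hs
    subst hR'
    have := hπ 1 ⟨Or.inl rfl⟩ (fun _ => ⟨(1, 0), trivial⟩) ⟨(0, 1), trivial⟩ (by simp [Bt, un])
    have h2 : π ⟨(0, 1), trivial⟩ = π 0 := by rw [this]; simp [Bt, un]
    have := congrArg Subtype.val (hinj h2)
    simp at this

end Pool.Agent.Results.MP_2fa119_al.NotSection
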